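import Mathlib
import Pool.Agent.TH119.LG.One

/-!
# One `ℓ`-adic L-parameter with bounded traces suffices

Let `K` and `E` be number fields and let `G` be a connected reductive group over `K`.  We fix a
faithful representation of the L-group of `G` in dimension `n`, so that the cosets `Ĝ ⋊ σ` are
closed subschemes of `GL_n`, and a family of Satake parameters `s_v` defined over `E`.  If the
traces of the `s_v` and their conjugates are bounded on a set of primes of upper density greater
than `1 - 1 / n ^ 2` and for ONE prime `ℓ` there is an `ℓ`-adic admissible homomorphism with these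
Satake parameters, then it has finite image and there are such homomorphisms over all algebraically
closed fields containing `E`.
-/

namespace Pool.Agent.Results.MP_666dc0_nt.OneParameterSuffices

open NumberField IsDedekindDomain Polynomial Filter

/-- The absolute Galois group, with the Krull topology. -/
abbrev AbsGal (K : Type) [Field K] : Type := Gal(AlgebraicClosure K/K)

/-- `σ` is a Frobenius element at the prime `v` of `K`: there is a maximal ideal `Q` above `v` of the
ring of all algebraic integers with `σ x ≡ x ^ N(v)` modulo `Q` for all `x`. -/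
def IsFrobenius {K : Type} [Field K] [NumberField K] (v : HeightOneSpectrum (𝓞 K))
    (σ : AbsGal K) : Prop :=
  ∃ Q : Ideal (𝓞 (AlgebraicClosure K)), Q.IsMaximal ∧
    Q.comap (algebraMap (𝓞 K) (𝓞 (AlgebraicClosure K))) = v.asIdeal ∧
    ∀ x : 𝓞 (AlgebraicClosure K), σ • x - x ^ Ideal.absNorm v.asIdeal ∈ Q

/-- `σ` is in an inertia group at the prime `v` of `K`: there is a maximal ideal `Q` above `v` of the
ring of all algebraic integers with `σ x ≡ x` modulo `Q` for all `x`. -/
def IsInertia {K : Type} [Field K] [NumberField K] (v : HeightOneSpectrum (𝓞 K))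
    (σ : AbsGal K) : Prop :=
  ∃ Q : Ideal (𝓞 (AlgebraicClosure K)), Q.IsMaximal ∧
    Q.comap (algebraMap (𝓞 K) (𝓞 (AlgebraicClosure K))) = v.asIdeal ∧
    ∀ x : 𝓞 (AlgebraicClosure K), σ • x - x ∈ Q

/-- Functions on `GL_n` with coefficients in the ring of integers of `E`: polynomials in the entries
of `g` (left summand) and of `g⁻¹` (right summand). -/
abbrev Fun (n : ℕ) (E : Type) [Field E] [NumberField E] : Type :=
  MvPolynomial ((Fin n × Fin n) ⊕ (Fin n × Fin n)) (𝓞 E)

/-- The value of a function at a matrix over `k`, the coefficients being mapped to `k` by `φ`. -/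
noncomputable def value {n : ℕ} {E : Type} [Field E] [NumberField E] {k : Type} [Field k]
    (φ : 𝓞 E →+* k) (g : Matrix.GeneralLinearGroup (Fin n) k) (f : Fun n E) : k :=
  f.eval₂ φ (Sum.elim (fun x => (g : Matrix (Fin n) (Fin n) k) x.1 x.2)
    fun x => ((g⁻¹ : Matrix.GeneralLinearGroup (Fin n) k) : Matrix (Fin n) (Fin n) k) x.1 x.2)

/-- An L-group in a faithful representation in dimension `n` and a family of Satake parameters
`s_v`: the equations of the cosets `Ĝ ⋊ σ`, the characteristic polynomials of the `s_v`, and pairs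
`(f, c)`, where `f` is a function (invariant under conjugation by `Ĝ`) and `c` is its value at
`s_v`. -/
structure SatakeData (K E : Type) [Field K] [NumberField K] [Field E] [NumberField E]
    (n : ℕ) where
  /-- The equations of the coset `Ĝ ⋊ σ`. -/
  coset : AbsGal K → Set (Fun n E)
  /-- The characteristic polynomial of `s_v`. -/
  poly : HeightOneSpectrum (𝓞 K) → (𝓞 E)[X]
  /-- The values of functions at `s_v`. -/
  satake : HeightOneSpectrum (𝓞 K) → Set (Fun n E × 𝓞 E)

/-- The homomorphism `ρ` over the field `k` is a parameter for the data `D` outside `S`, where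
`φ : 𝓞 E → k` is used to compare the coefficients: `ρ(σ)` is in the coset `Ĝ ⋊ σ` for all `σ`, and
for the primes `v` outside `S` it is unramified at `v` and the characteristic polynomial and the
values of the functions at the Frobenius elements at `v` are those of `s_v`. -/
structure IsParameter {K E : Type} [Field K] [NumberField K] [Field E] [NumberField E] {n : ℕ}
    (D : SatakeData K E n) (S : Set (HeightOneSpectrum (𝓞 K)))
    {k : Type} [Field k] (φ : 𝓞 E →+* k)
    (ρ : AbsGal K →* Matrix.GeneralLinearGroup (Fin n) k) : Prop where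
  admissible : ∀ σ, ∀ f ∈ D.coset σ, value φ (ρ σ) f = 0
  unramified : ∀ v ∉ S, ∀ σ, IsInertia v σ → ρ σ = 1
  charpoly : ∀ v ∉ S, ∀ σ, IsFrobenius v σ →
    (ρ σ : Matrix (Fin n) (Fin n) k).charpoly = (D.poly v).map φ
  satake : ∀ v ∉ S, ∀ σ, IsFrobenius v σ → ∀ x ∈ D.satake v, value φ (ρ σ) x.1 = φ x.2

/-- The representation `ρ` is semisimple: every stable subspace has a stable complement. -/
def IsSemisimple {G : Type} [Group G] {n : ℕ} {k : Type} [Field k]
    (ρ : G →* Matrix.GeneralLinearGroup (Fin n) k) : Prop :=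
  ∀ W : Submodule k (Fin n → k),
    (∀ g, ∀ x ∈ W, (ρ g : Matrix (Fin n) (Fin n) k).mulVec x ∈ W) →
    ∃ W' : Submodule k (Fin n → k),
      (∀ g, ∀ x ∈ W', (ρ g : Matrix (Fin n) (Fin n) k).mulVec x ∈ W') ∧ IsCompl W W'

/-- The upper natural density of the set `V` of primes of `K` is greater than `δ₀`: there is
`δ > δ₀` such that for arbitrarily large `N` at least `δ` times the number of primes of norm at most
`N` are in `V`. -/
def UpperDensityGT {K : Type} [Field K] [NumberField K] (V : Set (HeightOneSpectrum (𝓞 K)))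
    (δ₀ : ℝ) : Prop :=
  ∃ δ : ℝ, δ₀ < δ ∧ ∃ᶠ N : ℕ in atTop,
    δ * {v : HeightOneSpectrum (𝓞 K) | Ideal.absNorm v.asIdeal ≤ N}.ncard ≤
      {v : HeightOneSpectrum (𝓞 K) | Ideal.absNorm v.asIdeal ≤ N ∧ v ∈ V}.ncard

/-- **Theorem.** Let `K`, `E` be number fields, `n ≥ 1`, let `D` be an L-group in dimension `n` with
a family of Satake parameters and let `S` be a finite set of primes of `K`. Suppose that the set of
primes `v` at which the trace of `s_v` and all its conjugates are bounded by some `B` has upper
density greater than `1 - 1 / n ^ 2`. Let `ρ` be a continuous parameter for `D` outside `S` over a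
Hausdorff topological field `k`, by means of an embedding of `E` in `k`, which is semisimple in
dimension `n`. Then `ρ` has an open kernel, and for every embedding `ι'` of `E` in an algebraically
closed field `Ω` there is a parameter for `D` outside `S` over `Ω` with the same kernel. -/
theorem result {n : ℕ} (hn : 0 < n) (K : Type) [Field K] [NumberField K] (E : Type) [Field E]
    [NumberField E] (D : SatakeData K E n) (B : ℝ)
    (hB : UpperDensityGT {v | ∀ τ : E →+* ℂ, ‖τ ((D.poly v).coeff (n - 1) : 𝓞 E)‖ ≤ B}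
      (1 - 1 / (n : ℝ) ^ 2))
    (S : Set (HeightOneSpectrum (𝓞 K))) (hS : S.Finite)
    (k : Type) [Field k] [TopologicalSpace k] [IsTopologicalRing k] [T2Space k] (ι : E →+* k)
    (ρ : AbsGal K →* Matrix.GeneralLinearGroup (Fin n) k)
    (hcont : Continuous fun g => (ρ g : Matrix (Fin n) (Fin n) k))
    (hss : IsSemisimple ρ) (hρ : IsParameter D S (ι.comp (algebraMap (𝓞 E) E)) ρ) :
    IsOpen (ρ.ker : Set (AbsGal K)) ∧
    ∀ (Ω : Type) [Field Ω] [IsAlgClosed Ω] (ι' : E →+* Ω),
      ∃ r : AbsGal K →* Matrix.GeneralLinearGroup (Fin n) Ω, r.ker = ρ.ker ∧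
        IsParameter D S (ι'.comp (algebraMap (𝓞 E) E)) r := by
  classical
  have : CharZero k := charZero_of_injective_ringHom ι.injective
  obtain ⟨δ, hδ, hfreq⟩ := hB
  have hset : ∀ N : ℕ, {v : HeightOneSpectrum (𝓞 K) | Ideal.absNorm v.asIdeal ≤ N} =
      (Pool.Agent.W540.BE.upto K N : Set (HeightOneSpectrum (𝓞 K))) := by
    intro N
    ext v
    rw [Set.mem_ofPred_eq, Finset.mem_coe, Pool.Agent.W540.BE.mem_upto]
    rfl
  obtain ⟨h1, h2⟩ := Pool.Agent.TH119.LG.one hn D.poly S hS k ι ρ hcont hss hρ.charpoly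
    B δ hδ (by
      refine hfreq.mono fun N hN => ?_
      refine ⟨(Pool.Agent.W540.BE.upto K N).filter fun v =>
        ∀ τ : E →+* ℂ, ‖τ ((D.poly v).coeff (n - 1) : 𝓞 E)‖ ≤ B, ?_, ?_⟩
      · intro v hv
        rw [Finset.mem_filter, Pool.Agent.W540.BE.mem_upto] at hv
        exact hv
      · rw [hset, Set.ncard_coe_finset] at hN
        refine hN.trans (le_of_eq ?_)
        rw [← Set.ncard_coe_finset]
        congr 2
        ext v
        rw [Set.mem_ofPred_eq, Finset.mem_coe, Finset.mem_filter, Pool.Agent.W540.BE.mem_upto]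
        rfl)
  refine ⟨h1, fun Ω _ _ ι' => ?_⟩
  obtain ⟨r, hrU, hfr, htr⟩ := h2 Ω ι'
  -- values as evaluations
  have hval : ∀ {B : Type} [Field B] (ψ : 𝓞 E →+* B)
      (A : AbsGal K →* Matrix.GeneralLinearGroup (Fin n) B) (σ : AbsGal K) (f : Fun n E),
      Pool.Agent.TH119.LG.ev ψ (fun σ => (A σ : Matrix (Fin n) (Fin n) B))
        (MvPolynomial.rename (Sum.elim (fun x : Fin n × Fin n => (σ, x.1, x.2))
          fun x : Fin n × Fin n => (σ⁻¹, x.1, x.2)) f) = value ψ (A σ) f := by
    intro B _ ψ A σ f
    refine (MvPolynomial.eval₂_rename _ _ _ _).trans ?_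
    rw [value]
    congr 1
    funext x
    rcases x with x | x
    · rfl
    · change (A σ⁻¹ : Matrix (Fin n) (Fin n) B) x.1 x.2 = _
      rw [map_inv]
      rfl
  have hC : ∀ {B : Type} [Field B] (ψ : 𝓞 E →+* B)
      (A : AbsGal K → Matrix (Fin n) (Fin n) B) (c : 𝓞 E),
      Pool.Agent.TH119.LG.ev ψ A (MvPolynomial.C c) = ψ c := by
    intro B _ ψ A c
    exact MvPolynomial.eval₂_C _ _ _
  refine ⟨r, hrU, ?_, ?_, hfr, ?_⟩
  · intro σ f hf
    rw [← hval]
    refine htr _ ?_
    rw [hval]
    exact hρ.admissible σ f hf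
  · intro v hv σ hσ
    have h3 : σ ∈ ρ.ker := hρ.unramified v hv σ hσ
    rw [← hrU] at h3
    exact h3
  · intro v hv σ hσ x hx
    have h3 := htr (MvPolynomial.rename (Sum.elim (fun x : Fin n × Fin n => (σ, x.1, x.2))
      fun x : Fin n × Fin n => (σ⁻¹, x.1, x.2)) x.1 - MvPolynomial.C x.2) (by
      rw [map_sub, hval, hC, hρ.satake v hv σ hσ x hx, sub_self])
    rw [map_sub, hval, hC, sub_eq_zero] at h3
    exact h3

end Pool.Agent.Results.MP_666dc0_nt.OneParameterSuffices
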