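import Mathlib
import Pool.Agent.TH119.LG.Main

/-!
# L-parameters of Artin type from residual L-parameters

Let `K` and `E` be number fields and let `G` be a connected reductive group over `K`.  We fix a
faithful representation of the L-group of `G` in dimension `n`, so that the cosets `Ĝ ⋊ σ` are
closed subschemes of `GL_n`, and a family of Satake parameters `s_v` defined over `E`.  If the mean
square of the traces of the `s_v` is bounded (Artin type) and for infinitely many primes `λ` of `E`
there is an admissible homomorphism modulo `λ` with these Satake parameters, then there are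
admissible homomorphisms with finite image in characteristic zero with these Satake parameters, for
every `ℓ` and every embedding of `E`.
-/

namespace Pool.Agent.Results.MP_666dc0_nt.ParametersFromResidual

open NumberField IsDedekindDomain Polynomial

/-- The absolute Galois group, with the Krull topology. -/
abbrev AbsGal (K : Type) [Field K] : Type := Gal(AlgebraicClosure K/K)

/-- `σ` is a Frobenius element at the prime `v` of `K`: there is a maximal ideal `Q` above `v` of the
ring of all algebraic integers with `σ x ≡ x ^ N(v)` modulo `Q` for all `x`. -/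
def IsFrobenius {K : Type} [Field K] [NumberField K] (v : HeightOneSpectrum (𝓞 K))
    (σ : AbsGal K) : Prop :=
  ∃ Q : Ideal (𝓞 (AlgebraicClosure K)), Q.IsMaximal ∧
    Q.comap (algebraMap (𝓞 K) (𝓞 (AlgebraicClosure K))) = v.asIdeal ∧
    ∀ x : 𝓞 (AlgebraicClosure K), σ • x - x ^ Ideal.absNorm v.asIdeal ∈ Q

/-- `σ` is in an inertia group at the prime `v` of `K`: there is a maximal ideal `Q` above `v` of the
ring of all algebraic integers with `σ x ≡ x` modulo `Q` for all `x`. -/
def IsInertia {K : Type} [Field K] [NumberField K] (v : HeightOneSpectrum (𝓞 K))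
    (σ : AbsGal K) : Prop :=
  ∃ Q : Ideal (𝓞 (AlgebraicClosure K)), Q.IsMaximal ∧
    Q.comap (algebraMap (𝓞 K) (𝓞 (AlgebraicClosure K))) = v.asIdeal ∧
    ∀ x : 𝓞 (AlgebraicClosure K), σ • x - x ∈ Q

/-- Functions on `GL_n` with coefficients in the ring of integers of `E`: polynomials in the entries
of `g` (left summand) and of `g⁻¹` (right summand). -/
abbrev Fun (n : ℕ) (E : Type) [Field E] [NumberField E] : Type :=
  MvPolynomial ((Fin n × Fin n) ⊕ (Fin n × Fin n)) (𝓞 E)

/-- The value of a function at a matrix over `k`, the coefficients being mapped to `k` by `φ`. -/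
noncomputable def value {n : ℕ} {E : Type} [Field E] [NumberField E] {k : Type} [Field k]
    (φ : 𝓞 E →+* k) (g : Matrix.GeneralLinearGroup (Fin n) k) (f : Fun n E) : k :=
  f.eval₂ φ (Sum.elim (fun x => (g : Matrix (Fin n) (Fin n) k) x.1 x.2)
    fun x => ((g⁻¹ : Matrix.GeneralLinearGroup (Fin n) k) : Matrix (Fin n) (Fin n) k) x.1 x.2)

/-- An L-group in a faithful representation in dimension `n` and a family of Satake parameters
`s_v`: the equations of the cosets `Ĝ ⋊ σ`, the characteristic polynomials of the `s_v`, and pairs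
`(f, c)`, where `f` is a function (invariant under conjugation by `Ĝ`) and `c` is its value at
`s_v`. -/
structure SatakeData (K E : Type) [Field K] [NumberField K] [Field E] [NumberField E]
    (n : ℕ) where
  /-- The equations of the coset `Ĝ ⋊ σ`. -/
  coset : AbsGal K → Set (Fun n E)
  /-- The characteristic polynomial of `s_v`. -/
  poly : HeightOneSpectrum (𝓞 K) → (𝓞 E)[X]
  /-- The values of functions at `s_v`. -/
  satake : HeightOneSpectrum (𝓞 K) → Set (Fun n E × 𝓞 E)

/-- The homomorphism `ρ` over the field `k` is a parameter for the data `D` outside `S`, where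
`φ : 𝓞 E → k` is used to compare the coefficients: it has an open kernel, `ρ(σ)` is in the coset
`Ĝ ⋊ σ` for all `σ`, and for the primes `v` outside `S` with `N(v) ≠ 0` in `k` it is unramified at
`v` and the characteristic polynomial and the values of the functions at the Frobenius elements at
`v` are those of `s_v`. -/
structure IsParameter {K E : Type} [Field K] [NumberField K] [Field E] [NumberField E] {n : ℕ}
    (D : SatakeData K E n) (S : Set (HeightOneSpectrum (𝓞 K)))
    {k : Type} [Field k] (φ : 𝓞 E →+* k)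
    (ρ : AbsGal K →* Matrix.GeneralLinearGroup (Fin n) k) : Prop where
  openKernel : IsOpen (ρ.ker : Set (AbsGal K))
  admissible : ∀ σ, ∀ f ∈ D.coset σ, value φ (ρ σ) f = 0
  unramified : ∀ v ∉ S, ((Ideal.absNorm v.asIdeal : ℕ) : k) ≠ 0 → ∀ σ, IsInertia v σ → ρ σ = 1
  charpoly : ∀ v ∉ S, ((Ideal.absNorm v.asIdeal : ℕ) : k) ≠ 0 → ∀ σ, IsFrobenius v σ →
    (ρ σ : Matrix (Fin n) (Fin n) k).charpoly = (D.poly v).map φ
  satake : ∀ v ∉ S, ((Ideal.absNorm v.asIdeal : ℕ) : k) ≠ 0 → ∀ σ, IsFrobenius v σ →
    ∀ x ∈ D.satake v, value φ (ρ σ) x.1 = φ x.2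

/-- The representation `ρ` is semisimple: every stable subspace has a stable complement. -/
def IsSemisimple {G : Type} [Group G] {n : ℕ} {k : Type} [Field k]
    (ρ : G →* Matrix.GeneralLinearGroup (Fin n) k) : Prop :=
  ∀ W : Submodule k (Fin n → k),
    (∀ g, ∀ x ∈ W, (ρ g : Matrix (Fin n) (Fin n) k).mulVec x ∈ W) →
    ∃ W' : Submodule k (Fin n → k),
      (∀ g, ∀ x ∈ W', (ρ g : Matrix (Fin n) (Fin n) k).mulVec x ∈ W') ∧ IsCompl W W'

/-- The mean square of the traces is bounded: for every complex embedding `ι` of `E` there is a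
constant `C` such that the sum of `|ι(c_v)|²` over primes `v` outside `S` of norm at most `N` is at
most `C π(N)`, where `c_v` is the coefficient of `X ^ (n - 1)` in `P_v`. -/
def HasBoundedMeanSquare {K E : Type} [Field K] [NumberField K] [Field E] [NumberField E] (n : ℕ)
    (P : HeightOneSpectrum (𝓞 K) → (𝓞 E)[X]) (S : Set (HeightOneSpectrum (𝓞 K))) : Prop :=
  ∀ ι : E →+* ℂ, ∃ C : ℝ, ∀ (N : ℕ) (T : Finset (HeightOneSpectrum (𝓞 K))),
    (∀ v ∈ T, v ∉ S ∧ Ideal.absNorm v.asIdeal ≤ N) →
    ∑ v ∈ T, ‖ι ((P v).coeff (n - 1) : 𝓞 E)‖ ^ 2 ≤ C * Nat.primeCounting N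

/-- **Theorem.** Let `K`, `E` be number fields, `n ≥ 1`, let `D` be an L-group in dimension `n` with
a family of Satake parameters, let `S` be a finite set of primes of `K` and suppose that the mean
square of the traces of the Satake parameters is bounded. Suppose that for infinitely many primes
`λ` of `E` there is a parameter for `D` outside `S` over a field `k`, by means of a homomorphism
`φ : 𝓞 E → k` with kernel `λ`, which is semisimple in dimension `n`. Then there is an open subgroup
`U` such that for every embedding `ι` of `E` in an algebraically closed field `Ω` there is a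
parameter for `D` outside `S` over `Ω` with kernel `U`. -/
theorem result {n : ℕ} (hn : 0 < n) (K : Type) [Field K] [NumberField K] (E : Type) [Field E]
    [NumberField E] (D : SatakeData K E n) (S : Set (HeightOneSpectrum (𝓞 K))) (hS : S.Finite)
    (hD : HasBoundedMeanSquare n D.poly S)
    (hmod : {L : HeightOneSpectrum (𝓞 E) | ∃ (k : Type) (_ : Field k) (φ : 𝓞 E →+* k)
      (ρ : AbsGal K →* Matrix.GeneralLinearGroup (Fin n) k),
      RingHom.ker φ = L.asIdeal ∧ IsSemisimple ρ ∧ IsParameter D S φ ρ}.Infinite) :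
    ∃ U : Subgroup (AbsGal K), IsOpen (U : Set (AbsGal K)) ∧
      ∀ (Ω : Type) [Field Ω] [IsAlgClosed Ω] (ι : E →+* Ω),
      ∃ r : AbsGal K →* Matrix.GeneralLinearGroup (Fin n) Ω, r.ker = U ∧
        IsParameter D S (ι.comp (algebraMap (𝓞 E) E)) r := by
  set Λ := {L : HeightOneSpectrum (𝓞 E) | ∃ (k : Type) (_ : Field k) (φ : 𝓞 E →+* k)
      (ρ : AbsGal K →* Matrix.GeneralLinearGroup (Fin n) k),
      RingHom.ker φ = L.asIdeal ∧ IsSemisimple ρ ∧ IsParameter D S φ ρ} with hΛ
  have : Infinite Λ := hmod.to_subtype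
  have hch : ∀ L : Λ, ∃ (k : Type) (_ : Field k) (φ : 𝓞 E →+* k)
      (ρ : AbsGal K →* Matrix.GeneralLinearGroup (Fin n) k),
      RingHom.ker φ = (L : HeightOneSpectrum (𝓞 E)).asIdeal ∧ IsSemisimple ρ ∧
        IsParameter D S φ ρ := fun L => L.2
  choose k hk φ ρ hφ hss hpar using hch
  have hφf : ∀ a : 𝓞 E, a ≠ 0 → {L : Λ | φ L a = 0}.Finite := by
    intro a ha
    have h0 : Ideal.span {a} ≠ 0 := by
      rwa [Ne, Ideal.zero_eq_bot, Ideal.span_singleton_eq_bot]
    refine Set.Finite.subset (Set.Finite.preimage Subtype.val_injective.injOn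
      (Ideal.finite_factors h0)) ?_
    intro L hL
    change (L : HeightOneSpectrum (𝓞 E)).asIdeal ∣ Ideal.span {a}
    rw [Ideal.dvd_span_singleton, ← hφ L]
    exact hL
  obtain ⟨U, hU, -, hr⟩ := Pool.Agent.TH119.LG.main hn D.poly S hS hD (J := Λ) (k := k) φ hφf ρ
    (fun L => ⟨(hpar L).openKernel, hss L, (hpar L).unramified, (hpar L).charpoly⟩)
  refine ⟨U, hU, fun Ω _ _ ι => ?_⟩
  obtain ⟨r, hrU, hunr, hfr, htr⟩ := hr Ω ι
  -- values as evaluations
  have hval : ∀ {B : Type} [Field B] (ψ : 𝓞 E →+* B)
      (A : AbsGal K →* Matrix.GeneralLinearGroup (Fin n) B) (σ : AbsGal K) (f : Fun n E),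
      Pool.Agent.TH119.LG.ev ψ (fun σ => (A σ : Matrix (Fin n) (Fin n) B))
        (MvPolynomial.rename (Sum.elim (fun x : Fin n × Fin n => (σ, x.1, x.2))
          fun x : Fin n × Fin n => (σ⁻¹, x.1, x.2)) f) = value ψ (A σ) f := by
    intro B _ ψ A σ f
    refine (MvPolynomial.eval₂_rename _ _ _ _).trans ?_
    rw [value]
    congr 1
    funext x
    rcases x with x | x
    · rfl
    · change (A σ⁻¹ : Matrix (Fin n) (Fin n) B) x.1 x.2 = _
      rw [map_inv]
      rfl
  refine ⟨r, hrU, ?_, ?_, ?_, ?_, ?_⟩
  · rw [hrU]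
    exact hU
  · intro σ f hf
    rw [← hval]
    refine htr _ ?_
    convert Set.finite_empty
    ext L
    rw [Set.mem_ofPred_eq, hval, (hpar L).admissible σ f hf]
    simp
  · exact fun v hv _ => hunr v hv
  · exact fun v hv _ => hfr v hv
  · intro v hv _ σ hσ x hx
    have h1 := htr (MvPolynomial.rename (Sum.elim (fun x : Fin n × Fin n => (σ, x.1, x.2))
      fun x : Fin n × Fin n => (σ⁻¹, x.1, x.2)) x.1 - MvPolynomial.C x.2) (by
      refine (Pool.Agent.TH119.DS.finite_nat φ hφf (Ideal.absNorm v.asIdeal) (by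
        rw [Ne, Ideal.absNorm_eq_zero_iff]
        exact v.ne_bot)).subset ?_
      intro L hL
      by_contra hne
      apply hL
      rw [map_sub, hval, (hpar L).satake v hv hne σ hσ x hx]
      rw [Pool.Agent.TH119.LG.ev, MvPolynomial.coe_eval₂Hom, MvPolynomial.eval₂_C, sub_self])
    rw [map_sub, hval, sub_eq_zero] at h1
    rw [h1]
    exact MvPolynomial.eval₂_C _ _ _

end Pool.Agent.Results.MP_666dc0_nt.ParametersFromResidual
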